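import Pool.Agent.Helper20.PL.TRT

/-!
# Project PL, v7: the transfer for cyclic covers of a general curve

`K0` is the function field of the curve `Y` over `k`, and `K` a field over `K0` which contains a root
`y` of `y ^ ℓ = c h`.
-/

set_option autoImplicit false
set_option linter.unusedSectionVars false

namespace Pool.Agent.PRL

open VC IntermediateField NumberField Pool.Agent.SC Pool.Agent.Helper91.Sect
open Pool.Agent.L (L0 MM)
open Pool.Agent.LN (Geo Act GoodCurve)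
open Pool.Agent.M (Moves)

noncomputable section

/-- The field `kbar K0 (y)`, in the algebraic closure of `K`. -/
def KBG (k K0 : Type) {K : Type} [Field k] [Field K0] [Field K] [Algebra k K] [Algebra K0 K]
    (y : K) : Subfield (AlgebraicClosure K) :=
  Subfield.closure ({z | IsAlgebraic k z} ∪
    (Set.range (fun x : K0 => algebraMap K (AlgebraicClosure K) (algebraMap K0 K x)) ∪
      {algebraMap K (AlgebraicClosure K) y}))

/-- The tower over `kbar K0 (y)`: `TG (m + 1)` is the maximal abelian unramified extension of exponent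
`ℓ` of `TG m`. -/
def TG (k K0 : Type) {K : Type} [Field k] [Field K0] [Field K] [Algebra k K] [Algebra K0 K]
    (y : K) (ℓ : ℕ) : ℕ → Subfield (AlgebraicClosure K)
  | 0 => KBG k K0 y
  | m + 1 => Subfield.closure ((TG k K0 y ℓ m : Set (AlgebraicClosure K)) ∪
      {w | RtM k ℓ (TG k K0 y ℓ m) w})

/-- The section `s` of `K ∋ y` fixes a place of `TG m` above the valuation ring `P` of `K0`. -/
def AgrG {k K0 K : Type} [Field k] [Field K0] [Field K] [Algebra k K] [Algebra K0 K]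
    (s : GaloisSection k K) (y : K) (ℓ m : ℕ) (P : ValuationSubring K0) : Prop :=
  ∃ Q : ValuationSubring (AlgebraicClosure K), (∀ z, IsAlgebraic k z → z ∈ Q) ∧
    (∀ x : K0, algebraMap K (AlgebraicClosure K) (algebraMap K0 K x) ∈ Q ↔ x ∈ P) ∧
    ∀ w ∈ TG k K0 y ℓ m, ∃ hw : w ∈ Kur k K, ∀ g : Gk k K,
      (w ∈ Q ↔ (s.toHom g ⟨w, hw⟩ : AlgebraicClosure K) ∈ Q)

/-- BLOCK TRG: the transfer for a general curve. -/
def StmtTRG : Prop :=
  ∀ (k K0 : Type) [Field k] [NumberField k] [Field K0] [Algebra k K0] (ℓ : ℕ) (h : K0), 2 ≤ ℓ →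
    GoodCurve k ℓ h →
    ∃ (E U : Type) (_ : Field E) (_ : Field U) (_ : Algebra k E) (_ : Algebra E U)
      (_ : Algebra K0 U) (_ : Algebra k U) (_ : IsScalarTower k E U) (_ : IsScalarTower k K0 U)
      (r : U), Geo k K0 E U ℓ h r ∧
      ∀ c : k, c ≠ 0 → ∀ (K : Type) [Field K] [Algebra k K] [Algebra K0 K] [IsScalarTower k K0 K]
        (y : K), y ^ ℓ = algebraMap k K c * algebraMap K0 K h → ∀ s : GaloisSection k K,
        ∃ Φ : (E ≃ₐ[k] E) →* (U ≃+* U), Act (K0 := K0) ℓ r c Φ ∧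
          ∀ m : ℕ, (∀ w ∈ TG k K0 y ℓ m, w ∈ Kur k K) ∧
          ∀ Q : Place E (TT E K0 r ℓ m), (∀ g : E ≃ₐ[k] E, Moves (Φ g) _ Q Q) →
            ∀ P : ValuationSubring K0, (∀ (x : K0) (hx : algebraMap K0 U x ∈ TT E K0 r ℓ m),
              (⟨algebraMap K0 U x, hx⟩ : TT E K0 r ℓ m) ∈ Q.ring ↔ x ∈ P) → AgrG s y ℓ m P

end

end Pool.Agent.PRL

namespace Pool.Agent.PRL.TRG20

open VC IntermediateField NumberField Pool.Agent.SC Pool.Agent.Helper91.Sect
open Pool.Agent.L (L0 MM)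
open Pool.Agent.LN (Geo Act GoodCurve)
open Pool.Agent.M (Moves)
open Pool.Agent.PDL.TRL13 (j_r13 exists_ext13)
open Pool.Agent.PRL.TRT20

noncomputable section

section main

variable {k K0 E U : Type} [Field k] [NumberField k] [Field K0] [Field E] [Field U]
  [Algebra k K0] [Algebra k E] [Algebra E U] [Algebra K0 U] [Algebra k U] [IsScalarTower k E U]
  [IsScalarTower k K0 U] {n : ℕ} {h : K0} {r : U} (hn : 2 ≤ n) (G : Geo k K0 E U n h r)
  {K : Type} [Field K] [Algebra k K] [Algebra K0 K] [IsScalarTower k K0 K] {y : K}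
  {c : k} (hy : y ^ n = algebraMap k K c * algebraMap K0 K h)
  {j : U →+* AlgebraicClosure K}
  (hj1 : ∀ x : K0, j (algebraMap K0 U x) = algebraMap K (AlgebraicClosure K) (algebraMap K0 K x))
  (hj2 : ∀ z : E, IsAlgebraic k (j (algebraMap E U z)))
  (hj3 : ∀ z : AlgebraicClosure K, IsAlgebraic k z → ∃ z' : E, j (algebraMap E U z') = z)

include hn G hy hj1 hj3 in
/-- the base field is in the image of `M` -/
theorem kbg_sub (z : AlgebraicClosure K) (hz : z ∈ KBG k K0 y) :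
    ∃ u ∈ MM E K0 r, j u = z := by
  have h1 : KBG k K0 y ≤ (MM E K0 r).toSubfield.map j := by
    rw [KBG, Subfield.closure_le]
    rintro z (hz | ⟨x, rfl⟩ | hz)
    · obtain ⟨z', rfl⟩ := hj3 z hz
      exact ⟨_, (MM E K0 r).algebraMap_mem z', rfl⟩
    · refine ⟨algebraMap K0 U x, ?_, ?_⟩
      · exact IntermediateField.subset_adjoin _ _ (Or.inl ⟨x, rfl⟩)
      · exact hj1 x
    · obtain ⟨d, hd⟩ := j_r13 hn G hy hj1 hj3
      refine ⟨algebraMap E U d * r, ?_, ?_⟩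
      · exact mul_mem ((MM E K0 r).algebraMap_mem d)
          (IntermediateField.subset_adjoin _ _ (Or.inr rfl))
      · rw [Set.mem_singleton_iff] at hz
        rw [hz]; exact hd
  obtain ⟨u, hu, hu'⟩ := h1 hz
  exact ⟨u, hu, hu'⟩

include hn G hy hj1 hj2 hj3 in
/-- the tower is in the image -/
theorem tg_sub (m : ℕ) : ∀ z ∈ TG k K0 y n m, ∃ u ∈ TT E K0 r n m, j u = z := by
  induction m with
  | zero => exact kbg_sub hn G hy hj1 hj3
  | succ m ih =>
    have h1 : TG k K0 y n (m + 1) ≤ (TT E K0 r n (m + 1)).toSubfield.map j := by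
      rw [TG, Subfield.closure_le]
      rintro z (hz | hz)
      · obtain ⟨u, hu, hu'⟩ := ih z hz
        exact ⟨u, TT_le_succ m hu, hu'⟩
      · obtain ⟨u, hu, hu'⟩ := rt_step hn G hj2 hj3 ih hz
        exact ⟨u, TT_succ_mem hu, hu'⟩
    intro z hz
    obtain ⟨u, hu, hu'⟩ := h1 hz
    exact ⟨u, hu, hu'⟩

include hn G hy hj1 hj2 hj3 in
/-- **Agreement** from a fixed place. -/
theorem agrG20 {Φ : (E ≃ₐ[k] E) →* (U ≃+* U)} (hc : c ≠ 0) (hΦ : Act (K0 := K0) n r c Φ)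
    {s : GaloisSection k K} (hj4 : ∀ u, j u ∈ Kur k K)
    (hj5 : ∀ g : Gk k K, ∃ σ : E ≃ₐ[k] E, ∀ (u : U) (hu : j u ∈ Kur k K),
      (s.toHom g ⟨j u, hu⟩ : AlgebraicClosure K) = j (Φ σ u))
    {m : ℕ} {Q : Place E (TT E K0 r n m)} (hQΦ : ∀ g : E ≃ₐ[k] E, Moves (Φ g) _ Q Q)
    {P : ValuationSubring K0} (hP : ∀ (x : K0) (hx : algebraMap K0 U x ∈ TT E K0 r n m),
      (⟨algebraMap K0 U x, hx⟩ : TT E K0 r n m) ∈ Q.ring ↔ x ∈ P) :
    AgrG s y n m P := by
  obtain ⟨W, hW⟩ := _root_.SC.exists_place_over (K := E) (M := TT E K0 r n m) (N := U) Q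
  obtain ⟨V, hV1, hV2⟩ := exists_ext13 (k := k) hj2 hj3 W
  refine ⟨V, hV2, fun x => ?_, ?_⟩
  · rw [← hj1, hV1, ← hP x (mem_TT m x), ← hW]
    rfl
  · intro w hw
    obtain ⟨u, hu, rfl⟩ := tg_sub hn G hy hj1 hj2 hj3 m w hw
    refine ⟨hj4 u, fun g => ?_⟩
    obtain ⟨σ, hσ⟩ := hj5 g
    have hT : Φ σ u ∈ TT E K0 r n m := tt_stab (Φ σ) (hΦ.fixK σ)
      (fun e => ⟨σ e, hΦ.const σ e⟩) (act_r hc hn hΦ σ) m u hu
    rw [hσ, hV1, hV1]
    have h1 := hQΦ σ u hu hT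
    rw [← hW, ← hW] at h1
    exact h1

end main

end

end Pool.Agent.PRL.TRG20

namespace Pool.Agent.PRL

open VC NumberField Pool.Agent.SC Pool.Agent.Helper91.Sect TRG20
open Pool.Agent.PDL.TRL13 (trZ)

/-- BLOCK TRG. -/
theorem tRG : StmtTRG := by
  intro k K0 _ _ _ _ ℓ h hℓ hg
  obtain ⟨E, U, _, _, _, _, _, _, _, _, r, G, hsec⟩ := trZ k K0 ℓ h hℓ hg
  refine ⟨E, U, inferInstance, inferInstance, inferInstance, inferInstance, inferInstance,
    inferInstance, inferInstance, inferInstance, r, G, fun c hc0 K _ _ _ _ y hy s => ?_⟩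
  obtain ⟨Φ, hΦ, j, hj1, hj2, hj3, hj4, hj5⟩ := hsec c hc0 K y hy s
  refine ⟨Φ, hΦ, fun m => ⟨fun w hw => ?_, fun Q hQΦ P hP => ?_⟩⟩
  · obtain ⟨u, hu, rfl⟩ := tg_sub hℓ G hy hj1 hj2 hj3 m w hw
    exact hj4 u
  · exact agrG20 hℓ G hy hj1 hj2 hj3 hc0 hΦ hj4 hj5 hQΦ hP

end Pool.Agent.PRL
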