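import Pool.Agent.Helper20.PL.TRT
import Pool.Agent.Helper59.PLG.Defs

/-!
# Project PL, v7, block TRG: the transfer for cyclic covers of a general curve
-/

set_option autoImplicit false
set_option linter.unusedSectionVars false

namespace Pool.Agent.PRG.TRG20

open VC IntermediateField NumberField Pool.Agent.SC Pool.Agent.Helper91.Sect
open Pool.Agent.L (L0 MM)
open Pool.Agent.LN (Geo Act GoodCurve)
open Pool.Agent.M (Moves OverPl inL0)
open Pool.Agent.PDL (YL)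
open Pool.Agent.PDL.TRL13 (j_r13 exists_ext13 mem_L0 L0_le_YL mem_YL MM_le_YL stab13)
open Pool.Agent.PRL (TT RtM)
open Pool.Agent.PRL.TRT20

noncomputable section

section main

variable {k K0 E U : Type} [Field k] [NumberField k] [Field K0] [Field E] [Field U]
  [Algebra k K0] [Algebra k E] [Algebra E U] [Algebra K0 U] [Algebra k U] [IsScalarTower k E U]
  [IsScalarTower k K0 U] {n : ℕ} {h : K0} {r : U} (hn : 2 ≤ n) (G : Geo k K0 E U n h r)
  {K : Type} [Field K] [Algebra k K] [Algebra K0 K] [IsScalarTower k K0 K] {y : K}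
  {c : k} (hy : y ^ n = algebraMap k K c * algebraMap K0 K h)
  {j : U →+* AlgebraicClosure K}
  (hj1 : ∀ x : K0, j (algebraMap K0 U x) = algebraMap K (AlgebraicClosure K) (algebraMap K0 K x))
  (hj2 : ∀ z : E, IsAlgebraic k (j (algebraMap E U z)))
  (hj3 : ∀ z : AlgebraicClosure K, IsAlgebraic k z → ∃ z' : E, j (algebraMap E U z') = z)

include hj1 hj3 in
/-- the field of `Y` is in the image of `L0` -/
theorem kby_sub (z : AlgebraicClosure K) (hz : z ∈ KBY k K0 (K := K)) :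
    ∃ u ∈ L0 E K0 (U := U), j u = z := by
  have h1 : KBY k K0 (K := K) ≤ (L0 E K0 (U := U)).toSubfield.map j := by
    rw [KBY, Subfield.closure_le]
    rintro z (hz | ⟨x, rfl⟩)
    · obtain ⟨z', rfl⟩ := hj3 z hz
      exact ⟨_, (L0 E K0 (U := U)).algebraMap_mem z', rfl⟩
    · exact ⟨algebraMap K0 U x, mem_L0 x, hj1 x⟩
  obtain ⟨u, hu, hu'⟩ := h1 hz
  exact ⟨u, hu, hu'⟩

include hn G hy hj1 hj3 in
/-- the field of the cover is in the image of `M` -/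
theorem kbx_sub (z : AlgebraicClosure K) (hz : z ∈ KBX k K0 y) :
    ∃ u ∈ MM E K0 r, j u = z := by
  have h1 : KBX k K0 y ≤ (MM E K0 r).toSubfield.map j := by
    rw [KBX, Subfield.closure_le]
    rintro z ((hz | ⟨x, rfl⟩) | hz)
    · obtain ⟨z', rfl⟩ := hj3 z hz
      exact ⟨_, (MM E K0 r).algebraMap_mem z', rfl⟩
    · refine ⟨algebraMap K0 U x, ?_, ?_⟩
      · exact IntermediateField.subset_adjoin _ _ (Or.inl ⟨x, rfl⟩)
      · exact hj1 x
    · obtain ⟨d, hd⟩ := j_r13 hn G hy hj1 hj3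
      refine ⟨algebraMap E U d * r, ?_, ?_⟩
      · exact mul_mem ((MM E K0 r).algebraMap_mem d)
          (IntermediateField.subset_adjoin _ _ (Or.inr rfl))
      · rw [Set.mem_singleton_iff] at hz
        rw [hz]; exact hd
  obtain ⟨u, hu, hu'⟩ := h1 hz
  exact ⟨u, hu, hu'⟩

include hn G hy hj1 hj2 hj3 in
/-- the tower is in the image -/
theorem tg_sub (m : ℕ) : ∀ z ∈ TG k K0 y n m, ∃ u ∈ TT E K0 r n m, j u = z := by
  induction m with
  | zero => exact kbx_sub hn G hy hj1 hj3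
  | succ m ih =>
    have h1 : TG k K0 y n (m + 1) ≤ (TT E K0 r n (m + 1)).toSubfield.map j := by
      rw [TG, Subfield.closure_le]
      rintro z (hz | hz)
      · obtain ⟨u, hu, hu'⟩ := ih z hz
        exact ⟨u, TT_le_succ m hu, hu'⟩
      · obtain ⟨u, hu, hu'⟩ := rt_step hn G hj2 hj3 ih hz
        exact ⟨u, TT_succ_mem hu, hu'⟩
    intro z hz
    obtain ⟨u, hu, hu'⟩ := h1 hz
    exact ⟨u, hu, hu'⟩

include hn G hy hj1 hj2 hj3 in
/-- the level of `Y` is in the image -/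
theorem yg_sub : ∀ z ∈ YG k K0 y n, ∃ u ∈ YL E K0 n (U := U), j u = z := by
  have h1 : YG k K0 y n ≤ (YL E K0 n (U := U)).toSubfield.map j := by
    rw [YG, Subfield.closure_le]
    rintro z (hz | ⟨hz1, hz2⟩)
    · obtain ⟨u, hu, hu'⟩ := kbx_sub hn G hy hj1 hj3 z hz
      exact ⟨u, MM_le_YL G hu, hu'⟩
    · obtain ⟨u, hu, hu'⟩ := rt_step hn G hj2 hj3 (kbx_sub hn G hy hj1 hj3) hz2
      obtain ⟨v, hv, hv'⟩ := kby_sub hj1 hj3 _ hz1
      refine ⟨u, mem_YL ?_, hu'⟩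
      have h2 : u ^ n = v := j.injective (by rw [map_pow, hu', hv'])
      rw [h2]
      exact hv
  intro z hz
  obtain ⟨u, hu, hu'⟩ := h1 hz
  exact ⟨u, hu, hu'⟩

include hj1 hj2 hj3 in
/-- **Agreement** from a fixed place, for any stable level. -/
theorem agrN20 {Φ : (E ≃ₐ[k] E) →* (U ≃+* U)} {s : GaloisSection k K} (hj4 : ∀ u, j u ∈ Kur k K)
    (hj5 : ∀ g : Gk k K, ∃ σ : E ≃ₐ[k] E, ∀ (u : U) (hu : j u ∈ Kur k K),
      (s.toHom g ⟨j u, hu⟩ : AlgebraicClosure K) = j (Φ σ u))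
    {N : IntermediateField E U} {M : Subfield (AlgebraicClosure K)}
    (hMN : ∀ z ∈ M, ∃ u ∈ N, j u = z) (hst : ∀ (σ : E ≃ₐ[k] E), ∀ u ∈ N, Φ σ u ∈ N)
    (hK : ∀ x : K0, algebraMap K0 U x ∈ N)
    {Q : Place E N} (hQΦ : ∀ g : E ≃ₐ[k] E, Moves (Φ g) _ Q Q)
    {b : Place E (L0 E K0 (U := U))} (hb : OverPl b Q) {P : ValuationSubring K0}
    (hP : ∀ x : K0, x ∈ P ↔ inL0 x ∈ b.ring) :
    AgrG s M P := by
  obtain ⟨W, hW⟩ := _root_.SC.exists_place_over (K := E) (M := N) (N := U) Q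
  obtain ⟨V, hV1, hV2⟩ := exists_ext13 (k := k) hj2 hj3 W
  refine ⟨V, hV2, fun x => ?_, ?_⟩
  · rw [← hj1, hV1, hP x]
    exact (hb (algebraMap K0 U x) (mem_L0 x) (hK x)).trans (hW ⟨_, hK x⟩).symm
  · intro w hw
    obtain ⟨u, hu, rfl⟩ := hMN w hw
    refine ⟨hj4 u, fun g => ?_⟩
    obtain ⟨σ, hσ⟩ := hj5 g
    have hT : Φ σ u ∈ N := hst σ u hu
    rw [hσ, hV1, hV1]
    have h1 := hQΦ σ u hu hT
    rw [← hW, ← hW] at h1
    exact h1

end main

end

end Pool.Agent.PRG.TRG20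

namespace Pool.Agent.PRG

open VC NumberField Pool.Agent.SC Pool.Agent.Helper91.Sect TRG20
open Pool.Agent.PDL.TRL13 (trZ L0_le_YL mem_L0 stab13)
open Pool.Agent.PRL.TRT20

/-- BLOCK TRG. -/
theorem tRG : StmtTRG := by
  intro k K0 _ _ _ _ ℓ h hℓ hg
  obtain ⟨E, U, _, _, _, _, _, _, _, _, r, G, hsec⟩ := trZ k K0 ℓ h hℓ.two_le hg
  refine ⟨E, U, inferInstance, inferInstance, inferInstance, inferInstance, inferInstance,
    inferInstance, inferInstance, inferInstance, r, G, fun c hc0 K _ _ _ _ y hy s => ?_⟩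
  obtain ⟨Φ, hΦ, j, hj1, hj2, hj3, hj4, hj5⟩ := hsec c hc0 K y hy s
  refine ⟨Φ, hΦ, fun m Q hQΦ b P hb hP => ?_, fun Q hQΦ b P hb hP => ?_⟩
  · exact agrN20 hj1 hj2 hj3 hj4 hj5 (tg_sub hℓ.two_le G hy hj1 hj2 hj3 m)
      (fun σ => tt_stab (Φ σ) (hΦ.fixK σ) (fun e => ⟨σ e, hΦ.const σ e⟩)
        (act_r hc0 hℓ.two_le hΦ σ) m) (mem_TT m) hQΦ hb hP
  · exact agrN20 hj1 hj2 hj3 hj4 hj5 (yg_sub hℓ.two_le G hy hj1 hj2 hj3)
      (fun σ => stab13 (Φ σ) (hΦ.fixK σ) (fun e => ⟨σ e, hΦ.const σ e⟩))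
      (fun x => L0_le_YL (mem_L0 x)) hQΦ hb hP

end Pool.Agent.PRG
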