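import Pool.Agent.Helper20.PL.TRG2

/-!
# Project PL, v7, block TRG: the converse of the transfer at the level `YG`
-/

set_option autoImplicit false
set_option linter.unusedSectionVars false

namespace Pool.Agent.PRG.TRG20

open VC IntermediateField NumberField Pool.Agent.SC Pool.Agent.Helper91.Sect
open Pool.Agent.L (L0 MM)
open Pool.Agent.LN (Geo Act GoodCurve)
open Pool.Agent.M (Moves OverPl inL0)
open Pool.Agent.PDL (YL)
open Pool.Agent.PDL.TRL13 (j_r13 exists_ext13 mem_L0 L0_le_YL mem_YL MM_le_YL stab13)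
open Pool.Agent.PRL (TT RtM)
open Pool.Agent.PRL.TRT20

noncomputable section

section mono

variable {k K0 K : Type} [Field k] [Field K0] [Field K] [Algebra k K] [Algebra K0 K]

theorem kby_le_kbx (y : K) : KBY k K0 (K := K) ≤ KBX k K0 y :=
  Subfield.closure_mono fun _ hz => Or.inl hz

end mono

section main

variable {k K0 E U : Type} [Field k] [NumberField k] [Field K0] [Field E] [Field U]
  [Algebra k K0] [Algebra k E] [Algebra E U] [Algebra K0 U] [Algebra k U] [IsScalarTower k E U]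
  [IsScalarTower k K0 U] {n : ℕ} {h : K0} {r : U} (hn : 2 ≤ n) (G : Geo k K0 E U n h r)
  {K : Type} [Field K] [Algebra k K] [Algebra K0 K] [IsScalarTower k K0 K] {y : K}
  {c : k} (hc : c ≠ 0) (hy : y ^ n = algebraMap k K c * algebraMap K0 K h)
  {j : U →+* AlgebraicClosure K}
  (hj1 : ∀ x : K0, j (algebraMap K0 U x) = algebraMap K (AlgebraicClosure K) (algebraMap K0 K x))
  (hj2 : ∀ z : E, IsAlgebraic k (j (algebraMap E U z)))
  (hj3 : ∀ z : AlgebraicClosure K, IsAlgebraic k z → ∃ z' : E, j (algebraMap E U z') = z)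

include hj1 hj2 in
/-- `L0` maps to the field of `Y` -/
theorem l0_map : ∀ u ∈ L0 E K0 (U := U), j u ∈ KBY k K0 (K := K) := by
  have h1 : (L0 E K0 (U := U)).toSubfield ≤ (KBY k K0 (K := K)).comap j := by
    conv_lhs => rw [L0, IntermediateField.adjoin_toSubfield]
    rw [Subfield.closure_le]
    rintro z (⟨e, rfl⟩ | ⟨x, rfl⟩)
    · exact Subfield.subset_closure (Or.inl (hj2 e))
    · refine Subfield.subset_closure (Or.inr ⟨x, ?_⟩)
      exact (hj1 x).symm
  exact fun u hu => h1 hu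

include hn G hc hy hj1 hj2 hj3 in
/-- `M` maps to the field of the cover -/
theorem mm_map : ∀ u ∈ MM E K0 r, j u ∈ KBX k K0 y := by
  have hr0 : r ≠ 0 := by
    rintro rfl
    refine G.rnot 1 one_pos (by omega) ?_
    rw [pow_one]
    exact zero_mem _
  have hh : algebraMap K0 K h ≠ 0 := by
    intro h0
    have h1 : j (r ^ n) = 0 := by
      rw [G.rpow, hj1, h0, map_zero]
    exact pow_ne_zero n hr0 ((map_eq_zero j).1 h1)
  have hy0 : y ≠ 0 := by
    rintro rfl
    rw [zero_pow (by omega)] at hy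
    exact mul_ne_zero ((map_ne_zero (algebraMap k K)).2 hc) hh hy.symm
  have hyK : algebraMap K (AlgebraicClosure K) y ∈ KBX k K0 y :=
    Subfield.subset_closure (Or.inr rfl)
  obtain ⟨d, hd⟩ := j_r13 hn G hy hj1 hj3
  have hd0 : j (algebraMap E U d) ≠ 0 := by
    intro h0
    rw [map_mul, h0, zero_mul] at hd
    exact hy0 ((map_eq_zero (algebraMap K (AlgebraicClosure K))).1 hd.symm)
  have hjr : j r ∈ KBX k K0 y := by
    have h1 : j r = (j (algebraMap E U d))⁻¹ * algebraMap K (AlgebraicClosure K) y := by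
      rw [← hd, map_mul, ← mul_assoc, inv_mul_cancel₀ hd0, one_mul]
    rw [h1]
    exact mul_mem (inv_mem (Subfield.subset_closure (Or.inl (Or.inl (hj2 d))))) hyK
  have h1 : (MM E K0 r).toSubfield ≤ (KBX k K0 y).comap j := by
    conv_lhs => rw [MM, IntermediateField.adjoin_toSubfield]
    rw [Subfield.closure_le]
    rintro z (⟨e, rfl⟩ | ⟨x, rfl⟩ | hz)
    · exact Subfield.subset_closure (Or.inl (Or.inl (hj2 e)))
    · refine Subfield.subset_closure (Or.inl (Or.inr ⟨x, ?_⟩))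
      exact (hj1 x).symm
    · rw [Set.mem_singleton_iff] at hz
      rw [hz]
      exact hjr
  exact fun u hu => h1 hu

include hn G hc hy hj1 hj2 hj3 in
/-- the roots map to the roots -/
theorem rt_map {w : U} (hw : w ^ n ∈ L0 E K0 (U := U)) : RtM k n (KBX k K0 y) (j w) := by
  have hn0 : 0 < n := by omega
  have hmem : j (w ^ n) ∈ KBX k K0 y := kby_le_kbx y (l0_map hj1 hj2 _ hw)
  refine ⟨⟨j (w ^ n), hmem⟩, map_pow j w n, fun P hP => ?_⟩
  by_cases hw0 : w = 0
  · refine ⟨0, ?_⟩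
    have e : (⟨j (w ^ n), hmem⟩ : KBX k K0 y) = 0 := by
      apply Subtype.ext
      show j (w ^ n) = 0
      rw [hw0, zero_pow hn0.ne', map_zero]
    rw [e, map_zero, zero_pow hn0.ne']
  have hu0 : (⟨j (w ^ n), hmem⟩ : KBX k K0 y) ≠ 0 := by
    intro h0
    have h1 : j (w ^ n) = 0 := congrArg Subtype.val h0
    exact pow_ne_zero n hw0 ((map_eq_zero j).1 h1)
  by_cases hPt : P = ⊤
  · refine ⟨1, ?_⟩
    rw [map_one, one_pow]
    refine le_antisymm ?_ ?_
    · rw [ValuationSubring.valuation_le_one_iff, hPt]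
      trivial
    · have h1 : P.valuation (⟨j (w ^ n), hmem⟩ : KBX k K0 y)⁻¹ ≤ 1 := by
        rw [ValuationSubring.valuation_le_one_iff, hPt]
        trivial
      rw [map_inv₀] at h1
      exact (inv_le_one₀ (zero_lt_iff.2 ((Valuation.ne_zero_iff _).2 hu0))).1 h1
  let φ : MM E K0 r →+* KBX k K0 y :=
    (j.comp (algebraMap (MM E K0 r) U)).codRestrict (KBX k K0 y)
      (fun z => mm_map hn G hc hy hj1 hj2 hj3 z z.2)
  have hφs : Function.Surjective φ := by
    rintro ⟨z, hz⟩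
    obtain ⟨u, hu, rfl⟩ := kbx_sub hn G hy hj1 hj3 z hz
    exact ⟨⟨u, hu⟩, rfl⟩
  have hconst : ∀ a : E, algebraMap E (MM E K0 r) a ∈ P.comap φ := fun a => hP _ (hj2 a)
  have hnt : P.comap φ ≠ ⊤ := by
    intro h0
    apply hPt
    rw [eq_top_iff]
    intro z _
    obtain ⟨u, rfl⟩ := hφs z
    have h1 : u ∈ P.comap φ := by
      rw [h0]
      trivial
    exact h1
  obtain ⟨W, hW⟩ := _root_.SC.exists_place_over (K := E) (M := MM E K0 r) (N := U)
    (⟨P.comap φ, hconst, hnt⟩ : Place E (MM E K0 r))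
  obtain ⟨m, hm, hval⟩ := G.cover.unr W.ring W.algebraMap_mem w
  have hm0 : m ≠ 0 := by
    rintro rfl
    rw [map_zero] at hval
    exact hw0 ((Valuation.zero_iff _).1 hval)
  -- comparison of values
  have key : ∀ a b : MM E K0 r, b ≠ 0 → W.ring.valuation (a : U) ≤ W.ring.valuation (b : U) →
      P.valuation (φ a) ≤ P.valuation (φ b) := by
    intro a b hb hab
    have hb' : (b : U) ≠ 0 := fun h0 => hb (Subtype.ext h0)
    have h1 : algebraMap (MM E K0 r) U (a / b) ∈ W.ring := by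
      rw [← ValuationSubring.valuation_le_one_iff, map_div₀, map_div₀]
      exact div_le_one_of_le₀ hab zero_le
    have h2 : φ (a / b) ∈ P := (hW (a / b)).1 h1
    have hφb : φ b ≠ 0 := (map_ne_zero φ).2 hb
    rw [← ValuationSubring.valuation_le_one_iff, map_div₀, map_div₀,
      div_le_one₀ (zero_lt_iff.2 ((Valuation.ne_zero_iff _).2 hφb))] at h2
    exact h2
  have hwM : w ^ n ∈ MM E K0 r := by
    have hle : L0 E K0 (U := U) ≤ MM E K0 r := by
      rw [L0, IntermediateField.adjoin_le_iff]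
      rintro z ⟨x, rfl⟩
      exact IntermediateField.subset_adjoin _ _ (Or.inl ⟨x, rfl⟩)
    exact hle hw
  refine ⟨φ ⟨m, hm⟩, ?_⟩
  have hval' : W.ring.valuation (w ^ n) = W.ring.valuation (m ^ n) := by
    rw [map_pow, map_pow, hval]
  have e1 : (⟨j (w ^ n), hmem⟩ : KBX k K0 y) = φ ⟨w ^ n, hwM⟩ := rfl
  rw [e1, ← map_pow, ← map_pow]
  have e2 : ((⟨m, hm⟩ ^ n : MM E K0 r) : U) = m ^ n := rfl
  refine le_antisymm (key _ _ (pow_ne_zero n fun h0 => hm0 (congrArg Subtype.val h0)) ?_)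
    (key _ _ (fun h0 => pow_ne_zero n hw0 (congrArg Subtype.val h0)) ?_)
  · rw [e2]
    exact hval'.le
  · rw [e2]
    exact hval'.ge

include hn G hc hy hj1 hj2 hj3 in
/-- `YL` maps to `YG` -/
theorem yl_map : ∀ u ∈ YL E K0 n (U := U), j u ∈ YG k K0 y n := by
  have h1 : (YL E K0 n (U := U)).toSubfield ≤ (YG k K0 y n).comap j := by
    conv_lhs => rw [YL, IntermediateField.adjoin_toSubfield]
    rw [Subfield.closure_le]
    rintro z (⟨e, rfl⟩ | hz | hz)
    · exact Subfield.subset_closure (Or.inl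
        (Subfield.subset_closure (Or.inl (Or.inl (hj2 e)))))
    · exact Subfield.subset_closure (Or.inl (kby_le_kbx y (l0_map hj1 hj2 _ hz)))
    · refine Subfield.subset_closure (Or.inr ⟨?_, rt_map hn G hc hy hj1 hj2 hj3 hz⟩)
      rw [← map_pow]
      exact l0_map hj1 hj2 _ hz
  exact fun u hu => h1 hu

include hj1 hj2 hj3 in
/-- every automorphism of `E` comes from the Galois group -/
theorem surj20 {r : U} {Φ : (E ≃ₐ[k] E) →* (U ≃+* U)} (hΦ : Act (K0 := K0) n r c Φ)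
    {s : GaloisSection k K} (hj4 : ∀ u, j u ∈ Kur k K)
    (hj5 : ∀ g : Gk k K, ∃ σ : E ≃ₐ[k] E, ∀ (u : U) (hu : j u ∈ Kur k K),
      (s.toHom g ⟨j u, hu⟩ : AlgebraicClosure K) = j (Φ σ u)) (σ : E ≃ₐ[k] E) :
    ∃ g : Gk k K, ∀ (u : U) (hu : j u ∈ Kur k K),
      (s.toHom g ⟨j u, hu⟩ : AlgebraicClosure K) = j (Φ σ u) := by
  have hk : ∀ a : k, j (algebraMap E U (algebraMap k E a)) =
      algebraMap k (AlgebraicClosure K) a := by
    intro a
    rw [← IsScalarTower.algebraMap_apply k E U, IsScalarTower.algebraMap_apply k K0 U, hj1,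
      ← IsScalarTower.algebraMap_apply k K0 K, ← IsScalarTower.algebraMap_apply]
  let f : E →+* kbar k K := (j.comp (algebraMap E U)).codRestrict (kbar k K)
    (fun z => mem_algebraicClosure_iff.2 (hj2 z))
  have hf : ∀ z, (f z : AlgebraicClosure K) = j (algebraMap E U z) := fun z => rfl
  have hfb : Function.Bijective f := by
    refine ⟨f.injective, ?_⟩
    rintro ⟨z, hz⟩
    obtain ⟨z', hz'⟩ := hj3 z (mem_algebraicClosure_iff.1 hz)
    exact ⟨z', Subtype.ext hz'⟩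
  let e : E ≃ₐ[k] kbar k K := AlgEquiv.ofRingEquiv (f := RingEquiv.ofBijective f hfb)
    (fun a => Subtype.ext (hk a))
  have he : ∀ z, (e z : AlgebraicClosure K) = j (algebraMap E U z) := fun z => rfl
  let g : Gk k K := (e.symm.trans σ).trans e
  obtain ⟨σ', hσ'⟩ := hj5 g
  have hσ : σ' = σ := by
    apply AlgEquiv.ext
    intro x
    have h1 := hσ' (algebraMap E U x) (hj4 _)
    rw [hΦ.const] at h1
    have h2 := s.isSection g (e x) ⟨j (algebraMap E U x), hj4 _⟩ rfl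
    have h3 : g (e x) = e (σ x) := by
      show e (σ (e.symm (e x))) = e (σ x)
      rw [e.symm_apply_apply]
    rw [h3, he, h1] at h2
    exact (algebraMap E U).injective (j.injective h2)
  exact ⟨g, fun u hu => by rw [hσ' u hu, hσ]⟩

include hn G hc hy hj1 hj2 hj3 in
/-- **A fixed place** from the agreement. -/
theorem conv20 {Φ : (E ≃ₐ[k] E) →* (U ≃+* U)} (hΦ : Act (K0 := K0) n r c Φ)
    {s : GaloisSection k K} (hj4 : ∀ u, j u ∈ Kur k K)
    (hj5 : ∀ g : Gk k K, ∃ σ : E ≃ₐ[k] E, ∀ (u : U) (hu : j u ∈ Kur k K),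
      (s.toHom g ⟨j u, hu⟩ : AlgebraicClosure K) = j (Φ σ u))
    {P : ValuationSubring K0} (hP : P ≠ ⊤) (hA : AgrG s (YG k K0 y n) P) :
    ∃ (b : Place E (L0 E K0 (U := U))) (Q : Place E (YL E K0 n (U := U))), OverPl b Q ∧
      (∀ x : K0, x ∈ P ↔ inL0 x ∈ b.ring) ∧ ∀ g : E ≃ₐ[k] E, Moves (Φ g) _ Q Q := by
  obtain ⟨V, hV1, hV2, hV3⟩ := hA
  obtain ⟨x₀, hx₀⟩ : ∃ x : K0, x ∉ P := by
    by_contra hcon
    push Not at hcon
    apply hP
    rw [eq_top_iff]
    exact fun x _ => hcon x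
  have hV2' : ∀ x : K0, x ∈ P ↔ j (algebraMap K0 U x) ∈ V := fun x => by rw [hV2, hj1]
  let b : Place E (L0 E K0 (U := U)) :=
    { ring := V.comap (j.comp (algebraMap (L0 E K0 (U := U)) U))
      algebraMap_mem := fun a => hV1 _ (hj2 a)
      ne_top := by
        intro h0
        apply hx₀
        rw [hV2']
        have h1 : (inL0 x₀ : L0 E K0 (U := U)) ∈
            V.comap (j.comp (algebraMap (L0 E K0 (U := U)) U)) := by
          rw [h0]
          trivial
        exact h1 }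
  let Q : Place E (YL E K0 n (U := U)) :=
    { ring := V.comap (j.comp (algebraMap (YL E K0 n (U := U)) U))
      algebraMap_mem := fun a => hV1 _ (hj2 a)
      ne_top := by
        intro h0
        apply hx₀
        rw [hV2']
        have h1 : (⟨algebraMap K0 U x₀, L0_le_YL (mem_L0 x₀)⟩ : YL E K0 n (U := U)) ∈
            V.comap (j.comp (algebraMap (YL E K0 n (U := U)) U)) := by
          rw [h0]
          trivial
        exact h1 }
  refine ⟨b, Q, fun x hx hx' => Iff.rfl, fun x => hV2' x, fun σ x hx hx' => ?_⟩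
  obtain ⟨g, hg⟩ := surj20 hj1 hj2 hj3 hΦ hj4 hj5 σ
  obtain ⟨hw, h1⟩ := hV3 (j x) (yl_map hn G hc hy hj1 hj2 hj3 x hx)
  have h2 := h1 g
  rw [hg x hw] at h2
  exact h2

end main

end

end Pool.Agent.PRG.TRG20

namespace Pool.Agent.PRG

open VC NumberField Pool.Agent.SC Pool.Agent.Helper91.Sect TRG20
open Pool.Agent.L (L0 MM)
open Pool.Agent.LN (Geo Act GoodCurve)
open Pool.Agent.M (Moves OverPl inL0)
open Pool.Agent.PDL (YL)
open Pool.Agent.PRL (TT)
open Pool.Agent.PDL.TRL13 (trZ L0_le_YL mem_L0 stab13)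
open Pool.Agent.PRL.TRT20

/-! ## Monotonicity -/

theorem TG_le_succ {k K0 K : Type} [Field k] [Field K0] [Field K] [Algebra k K] [Algebra K0 K]
    (y : K) (ℓ m : ℕ) : TG k K0 y ℓ m ≤ TG k K0 y ℓ (m + 1) := fun _ hz =>
  Subfield.subset_closure (Or.inl hz)

theorem TG_mono {k K0 K : Type} [Field k] [Field K0] [Field K] [Algebra k K] [Algebra K0 K]
    (y : K) (ℓ : ℕ) {m m' : ℕ} (hm : m ≤ m') : TG k K0 y ℓ m ≤ TG k K0 y ℓ m' := by
  induction hm with
  | refl => exact le_rfl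
  | step _ ih => exact ih.trans (TG_le_succ y ℓ _)

theorem YG_le_TG1 {k K0 K : Type} [Field k] [Field K0] [Field K] [Algebra k K] [Algebra K0 K]
    (y : K) (ℓ : ℕ) : YG k K0 y ℓ ≤ TG k K0 y ℓ 1 := by
  refine Subfield.closure_mono ?_
  rintro z (hz | hz)
  · exact Or.inl hz
  · exact Or.inr hz.2

/-- `YG` is contained in the levels `TG (j + 1)` -/
theorem YG_le_TG {k K0 K : Type} [Field k] [Field K0] [Field K] [Algebra k K] [Algebra K0 K]
    (y : K) (ℓ j : ℕ) : YG k K0 y ℓ ≤ TG k K0 y ℓ (j + 1) :=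
  (YG_le_TG1 y ℓ).trans (TG_mono y ℓ (by omega))

theorem AgrG.mono {k K0 K : Type} [Field k] [Field K0] [Field K] [Algebra k K] [Algebra K0 K]
    {s : GaloisSection k K} {N N' : Subfield (AlgebraicClosure K)} {P : ValuationSubring K0}
    (h : AgrG s N P) (hN : N' ≤ N) : AgrG s N' P := by
  obtain ⟨Q, h1, h2, h3⟩ := h
  exact ⟨Q, h1, h2, fun w hw => h3 w (hN hw)⟩

/-- The transfer in both directions. -/
def StmtTRG2 : Prop :=
  ∀ (k K0 : Type) [Field k] [NumberField k] [Field K0] [Algebra k K0] (ℓ : ℕ) (h : K0), ℓ.Prime →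
    GoodCurve k ℓ h →
    ∃ (E U : Type) (_ : Field E) (_ : Field U) (_ : Algebra k E) (_ : Algebra E U)
      (_ : Algebra K0 U) (_ : Algebra k U) (_ : IsScalarTower k E U) (_ : IsScalarTower k K0 U)
      (r : U), Geo k K0 E U ℓ h r ∧
      ∀ c : k, c ≠ 0 → ∀ (K : Type) [Field K] [Algebra k K] [Algebra K0 K] [IsScalarTower k K0 K]
        (y : K), y ^ ℓ = algebraMap k K c * algebraMap K0 K h → ∀ s : GaloisSection k K,
        ∃ Φ : (E ≃ₐ[k] E) →* (U ≃+* U), Act (K0 := K0) ℓ r c Φ ∧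
          (∀ (m : ℕ) (Q : Place E (TT E K0 r ℓ m)), (∀ g : E ≃ₐ[k] E, Moves (Φ g) _ Q Q) →
            ∀ (b : Place E (L0 E K0 (U := U))) (P : ValuationSubring K0), OverPl b Q →
            (∀ x : K0, x ∈ P ↔ inL0 x ∈ b.ring) → AgrG s (TG k K0 y ℓ m) P) ∧
          (∀ Q : Place E (YL E K0 ℓ (U := U)), (∀ g : E ≃ₐ[k] E, Moves (Φ g) _ Q Q) →
            ∀ (b : Place E (L0 E K0 (U := U))) (P : ValuationSubring K0), OverPl b Q →
            (∀ x : K0, x ∈ P ↔ inL0 x ∈ b.ring) → AgrG s (YG k K0 y ℓ) P) ∧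
          ∀ P : ValuationSubring K0, P ≠ ⊤ → AgrG s (YG k K0 y ℓ) P →
            ∃ (b : Place E (L0 E K0 (U := U))) (Q : Place E (YL E K0 ℓ (U := U))), OverPl b Q ∧
              (∀ x : K0, x ∈ P ↔ inL0 x ∈ b.ring) ∧ ∀ g : E ≃ₐ[k] E, Moves (Φ g) _ Q Q

theorem tRG2 : StmtTRG2 := by
  intro k K0 _ _ _ _ ℓ h hℓ hg
  obtain ⟨E, U, _, _, _, _, _, _, _, _, r, G, hsec⟩ := trZ k K0 ℓ h hℓ.two_le hg
  refine ⟨E, U, inferInstance, inferInstance, inferInstance, inferInstance, inferInstance,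
    inferInstance, inferInstance, inferInstance, r, G, fun c hc0 K _ _ _ _ y hy s => ?_⟩
  obtain ⟨Φ, hΦ, j, hj1, hj2, hj3, hj4, hj5⟩ := hsec c hc0 K y hy s
  refine ⟨Φ, hΦ, fun m Q hQΦ b P hb hP => ?_, fun Q hQΦ b P hb hP => ?_, fun P hP hA => ?_⟩
  · exact agrN20 hj1 hj2 hj3 hj4 hj5 (tg_sub hℓ.two_le G hy hj1 hj2 hj3 m)
      (fun σ => tt_stab (Φ σ) (hΦ.fixK σ) (fun e => ⟨σ e, hΦ.const σ e⟩)
        (act_r hc0 hℓ.two_le hΦ σ) m) (mem_TT m) hQΦ hb hP
  · exact agrN20 hj1 hj2 hj3 hj4 hj5 (yg_sub hℓ.two_le G hy hj1 hj2 hj3)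
      (fun σ => stab13 (Φ σ) (hΦ.fixK σ) (fun e => ⟨σ e, hΦ.const σ e⟩))
      (fun x => L0_le_YL (mem_L0 x)) hQΦ hb hP
  · exact conv20 hℓ.two_le G hc0 hy hj1 hj2 hj3 hΦ hj4 hj5 hP hA

end Pool.Agent.PRG
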