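import Pool.Agent.Helper13.PD.TRL
import Pool.Agent.Helper45.PL.Defs

/-!
# Project PL, block TRT: the transfer for the tower over `y ^ ℓ = c f(x)`
-/

set_option autoImplicit false
set_option linter.unusedSectionVars false

namespace Pool.Agent.PRL.TRT20

open VC IntermediateField NumberField Pool.Agent.SC Pool.Agent.Helper91.Sect
open Pool.Agent.L (L0 MM)
open Pool.Agent.LN (Geo Act GoodCurve)
open Pool.Agent.M (Moves)
open Pool.Agent.PDL (PoleAt KB2)
open Pool.Agent.PDL.TRL13 (j_r13 kb2_sub exists_ext13 mem_L0)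

noncomputable section

section main

variable {k K0 E U : Type} [Field k] [NumberField k] [Field K0] [Field E] [Field U]
  [Algebra k K0] [Algebra k E] [Algebra E U] [Algebra K0 U] [Algebra k U] [IsScalarTower k E U]
  [IsScalarTower k K0 U] {n : ℕ} {x₀ h : K0} {r : U} (hn : 2 ≤ n) (G : Geo k K0 E U n h r)
  {K : Type} [Field K] [Algebra k K] [Algebra K0 K] [IsScalarTower k K0 K] {y : K}
  {c : k} (hy : y ^ n = algebraMap k K c * algebraMap K0 K h)
  {j : U →+* AlgebraicClosure K}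
  (hj1 : ∀ x : K0, j (algebraMap K0 U x) = algebraMap K (AlgebraicClosure K) (algebraMap K0 K x))
  (hj2 : ∀ z : E, IsAlgebraic k (j (algebraMap E U z)))
  (hj3 : ∀ z : AlgebraicClosure K, IsAlgebraic k z → ∃ z' : E, j (algebraMap E U z') = z)

theorem TT_succ_mem {m : ℕ} {w : U} (hw : w ^ n ∈ TT E K0 r n m) : w ∈ TT E K0 r n (m + 1) :=
  IntermediateField.subset_adjoin _ _ (Or.inr hw)

theorem TT_le_succ (m : ℕ) : TT E K0 r n m ≤ TT E K0 r n (m + 1) := fun _ hu =>
  IntermediateField.subset_adjoin _ _ (Or.inl hu)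

theorem MM_le_TT (m : ℕ) : MM E K0 r ≤ TT E K0 r n m := by
  induction m with
  | zero => exact le_rfl
  | succ m ih => exact ih.trans (TT_le_succ m)

theorem mem_TT (m : ℕ) (x : K0) : algebraMap K0 U x ∈ TT E K0 r n m :=
  MM_le_TT m (IntermediateField.subset_adjoin _ _ (Or.inl ⟨x, rfl⟩))

include hn G hj2 hj3 in
/-- one step of the tower: the roots -/
theorem rt_step {N : IntermediateField E U} {M : Subfield (AlgebraicClosure K)}
    (hMN : ∀ z ∈ M, ∃ u ∈ N, j u = z) {w : AlgebraicClosure K} (hw : RtM k n M w) :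
    ∃ u : U, u ^ n ∈ N ∧ j u = w := by
  have hn0 : 0 < n := by omega
  obtain ⟨u, hu, hP⟩ := hw
  obtain ⟨u0, hu0, hju⟩ := hMN u u.2
  by_cases hw0 : w = 0
  · exact ⟨0, by rw [zero_pow hn0.ne']; exact zero_mem _, by rw [map_zero, hw0]⟩
  have hu00 : u0 ≠ 0 := by
    rintro rfl
    rw [map_zero] at hju
    rw [← hju] at hu
    exact pow_ne_zero n hw0 hu.symm
  obtain ⟨w0, hw0'⟩ := G.cover.root u0 n hn0 (by
    intro W hW
    by_cases hWt : W = ⊤
    · refine ⟨1, ?_⟩
      rw [one_pow, map_one]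
      refine le_antisymm ?_ ?_
      · rw [ValuationSubring.valuation_le_one_iff, hWt]
        trivial
      · have h1 : W.valuation u0⁻¹ ≤ 1 := by
          rw [ValuationSubring.valuation_le_one_iff, hWt]
          trivial
        rw [map_inv₀] at h1
        exact (inv_le_one₀ (zero_lt_iff.2 ((Valuation.ne_zero_iff _).2 hu00))).1 h1
    obtain ⟨V, hV1, hV2⟩ := exists_ext13 (k := k) hj2 hj3 (⟨W, hW, hWt⟩ : Place E U)
    obtain ⟨z, hz⟩ := hP (V.comap M.subtype) fun z hz => hV2 _ hz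
    obtain ⟨z0, hz0, hjz⟩ := hMN z z.2
    refine ⟨z0, ?_⟩
    have hu1 : u ≠ 0 := by
      rintro rfl
      exact pow_ne_zero n hw0 hu.symm
    have hz1 : z ≠ 0 := by
      rintro rfl
      rw [map_zero, zero_pow hn0.ne'] at hz
      exact hu1 ((map_eq_zero _).1 hz)
    have hz00 : z0 ≠ 0 := by
      rintro rfl
      rw [map_zero] at hjz
      exact hz1 (Subtype.ext hjz.symm)
    -- quotients are units
    have key : ∀ a b : M, ∀ a0 b0 : U, j a0 = a → j b0 = b → b ≠ 0 →
        b0 ≠ 0 →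
        (V.comap M.subtype).valuation a ≤ (V.comap M.subtype).valuation b →
        W.valuation a0 ≤ W.valuation b0 := by
      intro a b a0 b0 ha hb hb0 hb00 hab
      have h1 : a / b ∈ V.comap M.subtype := by
        rw [← ValuationSubring.valuation_le_one_iff, map_div₀]
        exact div_le_one_of_le₀ hab zero_le
      rw [ValuationSubring.mem_comap] at h1
      have h2 : M.subtype (a / b) = j (a0 / b0) := by
        rw [map_div₀, map_div₀, ha, hb]
        rfl
      rw [h2, hV1] at h1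
      change a0 / b0 ∈ W at h1
      rw [← ValuationSubring.valuation_le_one_iff, map_div₀,
        div_le_one₀ (zero_lt_iff.2 ((Valuation.ne_zero_iff _).2 hb00))] at h1
      exact h1
    have hjzm : j (z0 ^ n) = ((z ^ n : M) : AlgebraicClosure K) := by
      rw [map_pow, hjz]
      rfl
    refine le_antisymm ?_ ?_
    · exact key u (z ^ n) u0 (z0 ^ n) hju hjzm (pow_ne_zero n hz1) (pow_ne_zero n hz00)
        (by rw [map_pow]; exact hz.le)
    · exact key (z ^ n) u (z0 ^ n) u0 hjzm hju hu1 hu00 (by rw [map_pow]; exact hz.ge))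
  -- the quotient is a root of unity
  have hw00 : w0 ≠ 0 := by
    rintro rfl
    rw [zero_pow hn0.ne'] at hw0'
    exact hu00 hw0'.symm
  have hj0 : j w0 ≠ 0 := (map_ne_zero j).2 hw00
  have h1 : (w / j w0) ^ n = 1 := by
    rw [div_pow, ← map_pow, hw0', hju, hu]
    exact div_self (pow_ne_zero n hw0)
  have h2 : IsAlgebraic k (w / j w0) := by
    refine IsAlgebraic.of_pow hn0 ?_
    rw [h1]
    exact isAlgebraic_one
  obtain ⟨ζ, hζ⟩ := hj3 _ h2
  refine ⟨algebraMap E U ζ * w0, ?_, ?_⟩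
  · rw [mul_pow, hw0', ← map_pow]
    exact mul_mem (N.algebraMap_mem _) hu0
  · rw [map_mul, hζ, div_mul_cancel₀ _ hj0]

include hn G hy hj1 hj2 hj3 in
/-- the tower is in the image -/
theorem tb_sub (m : ℕ) : ∀ z ∈ TB k (algebraMap K0 K x₀) y n m, ∃ u ∈ TT E K0 r n m, j u = z := by
  induction m with
  | zero => exact kb2_sub (x₀ := x₀) hn G hy hj1 hj3
  | succ m ih =>
    have h1 : TB k (algebraMap K0 K x₀) y n (m + 1) ≤
        (TT E K0 r n (m + 1)).toSubfield.map j := by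
      rw [TB, Subfield.closure_le]
      rintro z (hz | hz)
      · obtain ⟨u, hu, hu'⟩ := ih z hz
        exact ⟨u, TT_le_succ m hu, hu'⟩
      · obtain ⟨u, hu, hu'⟩ := rt_step hn G hj2 hj3 ih hz
        exact ⟨u, TT_succ_mem hu, hu'⟩
    intro z hz
    obtain ⟨u, hu, hu'⟩ := h1 hz
    exact ⟨u, hu, hu'⟩

/-- the tower is stable -/
theorem tt_stab (T : U ≃+* U) (hT1 : ∀ x : K0, T (algebraMap K0 U x) = algebraMap K0 U x)
    (hT2 : ∀ e : E, ∃ e' : E, T (algebraMap E U e) = algebraMap E U e')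
    (hT3 : T r ∈ MM E K0 r) (m : ℕ) : ∀ z ∈ TT E K0 r n m, T z ∈ TT E K0 r n m := by
  induction m with
  | zero =>
    have h0 : (TT E K0 r n 0).toSubfield ≤ (TT E K0 r n 0).toSubfield.comap (T : U →+* U) := by
      conv_lhs => rw [TT, MM, IntermediateField.adjoin_toSubfield]
      rw [Subfield.closure_le]
      rintro z (⟨e, rfl⟩ | ⟨x, rfl⟩ | hz)
      · obtain ⟨e', he'⟩ := hT2 e
        change T (algebraMap E U e) ∈ TT E K0 r n 0
        rw [he']
        exact IntermediateField.algebraMap_mem _ e'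
      · change T (algebraMap K0 U x) ∈ TT E K0 r n 0
        rw [hT1]
        exact mem_TT 0 x
      · rw [Set.mem_singleton_iff] at hz
        rw [hz]
        exact hT3
    exact fun z hz => h0 hz
  | succ m ih =>
    have h1 : (TT E K0 r n (m + 1)).toSubfield ≤
        (TT E K0 r n (m + 1)).toSubfield.comap (T : U →+* U) := by
      conv_lhs => rw [TT, IntermediateField.adjoin_toSubfield]
      rw [Subfield.closure_le]
      rintro z (⟨e, rfl⟩ | hz | hz)
      · obtain ⟨e', he'⟩ := hT2 e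
        change T (algebraMap E U e) ∈ TT E K0 r n (m + 1)
        rw [he']
        exact IntermediateField.algebraMap_mem _ e'
      · exact TT_le_succ m (ih z hz)
      · refine TT_succ_mem (w := T z) ?_
        rw [← map_pow]
        exact ih _ hz
    exact fun z hz => h1 hz

/-- the action moves `r` by a constant -/
theorem act_r {Φ : (E ≃ₐ[k] E) →* (U ≃+* U)} (hc : c ≠ 0) (hn : 2 ≤ n)
    (hΦ : Act (K0 := K0) n r c Φ) (g : E ≃ₐ[k] E) : Φ g r ∈ MM E K0 r := by
  obtain ⟨d, hd, hd'⟩ := hΦ.tw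
  have hd0 : d ≠ 0 := by
    rintro rfl
    rw [zero_pow (by omega)] at hd
    exact hc ((map_eq_zero (algebraMap k E)).1 hd.symm)
  have h1 : algebraMap E U (g d) ≠ 0 := by
    rw [Ne, map_eq_zero, map_eq_zero_iff g g.injective]
    exact hd0
  have h2 : Φ g r = algebraMap E U d * r * (algebraMap E U (g d))⁻¹ :=
    (eq_mul_inv_iff_mul_eq₀ h1).2 (hd' g)
  rw [h2]
  exact mul_mem (mul_mem ((MM E K0 r).algebraMap_mem d)
    (IntermediateField.subset_adjoin _ _ (Or.inr rfl))) (inv_mem ((MM E K0 r).algebraMap_mem _))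

include hn G hy hj1 hj2 hj3 in
/-- **Agreement** from a fixed place. -/
theorem agrT20 {Φ : (E ≃ₐ[k] E) →* (U ≃+* U)} (hc : c ≠ 0) (hΦ : Act (K0 := K0) n r c Φ)
    {s : GaloisSection k K} (hj4 : ∀ u, j u ∈ Kur k K)
    (hj5 : ∀ g : Gk k K, ∃ σ : E ≃ₐ[k] E, ∀ (u : U) (hu : j u ∈ Kur k K),
      (s.toHom g ⟨j u, hu⟩ : AlgebraicClosure K) = j (Φ σ u))
    {m : ℕ} {Q : Place E (TT E K0 r n m)} {u₀ : K0} (hQ : PoleAt u₀ Q)
    (hQΦ : ∀ g : E ≃ₐ[k] E, Moves (Φ g) _ Q Q) :
    AgrT s (algebraMap K0 K x₀) y n m (algebraMap K0 K u₀) := by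
  obtain ⟨W, hW⟩ := _root_.SC.exists_place_over (K := E) (M := TT E K0 r n m) (N := U) Q
  obtain ⟨V, hV1, hV2⟩ := exists_ext13 (k := k) hj2 hj3 W
  refine ⟨V, hV2, ?_, ?_⟩
  · rw [← hj1, hV1]
    have hx : algebraMap K0 U u₀ ∈ TT E K0 r n m := mem_TT m u₀
    intro h1
    exact hQ hx ((hW ⟨_, hx⟩).1 h1)
  · intro w hw
    obtain ⟨u, hu, rfl⟩ := tb_sub (x₀ := x₀) hn G hy hj1 hj2 hj3 m w hw
    refine ⟨hj4 u, fun g => ?_⟩
    obtain ⟨σ, hσ⟩ := hj5 g
    have hT : Φ σ u ∈ TT E K0 r n m := tt_stab (Φ σ) (hΦ.fixK σ)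
      (fun e => ⟨σ e, hΦ.const σ e⟩) (act_r hc hn hΦ σ) m u hu
    rw [hσ, hV1, hV1]
    have h1 := hQΦ σ u hu hT
    rw [← hW, ← hW] at h1
    exact h1

end main

end

end Pool.Agent.PRL.TRT20

namespace Pool.Agent.PRL

open VC Polynomial NumberField Pool.Agent.SC Pool.Agent.Helper91.Sect TRT20
open Pool.Agent.PDL.TRL13 (trZ aeval_X13 adjoin_X13 trans_X13)

/-- BLOCK B10 (TRT): the transfer for the tower. -/
theorem tRT : StmtTRT := by
  intro k _ _ ℓ f hℓ hg
  obtain ⟨E, U, _, _, _, _, _, _, _, _, r, G, hsec⟩ :=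
    trZ k (FractionRing k[X]) ℓ (algebraMap k[X] (FractionRing k[X]) f) hℓ.two_le hg
  have G' := G
  rw [← aeval_X13] at G'
  refine ⟨E, U, inferInstance, inferInstance, inferInstance, inferInstance, inferInstance,
    inferInstance, inferInstance, inferInstance, r, ⟨G', adjoin_X13, trans_X13⟩,
    fun c hc0 K _ _ x y hx hy s => ?_⟩
  have hinj : Function.Injective ((aeval x : k[X] →ₐ[k] K) : k[X] →+* K) := by
    have := transcendental_iff_injective.1 hx
    exact this
  let φ : FractionRing k[X] →+* K := IsFractionRing.lift hinj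
  let _ : Algebra (FractionRing k[X]) K := φ.toAlgebra
  have hφ : ∀ p : k[X], algebraMap (FractionRing k[X]) K (algebraMap k[X] (FractionRing k[X]) p) =
      aeval x p := fun p => IsFractionRing.lift_algebraMap hinj p
  have hst' : IsScalarTower k (FractionRing k[X]) K := by
    refine IsScalarTower.of_algebraMap_eq fun a => ?_
    have e1 : algebraMap k (FractionRing k[X]) a = algebraMap k[X] (FractionRing k[X]) (C a) := rfl
    rw [e1, hφ, aeval_C]
  obtain ⟨Φ, hΦ, j, hj1, hj2, hj3, hj4, hj5⟩ := hsec c hc0 K y (by rw [hφ, hy]) s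
  have hx₀ : algebraMap (FractionRing k[X]) K (algebraMap k[X] (FractionRing k[X]) X) = x := by
    rw [hφ, aeval_X]
  refine ⟨Φ, hΦ, fun m => ⟨fun w hw => ?_, fun Q hQΦ => ⟨fun hQ => ?_, fun α hQ => ?_⟩⟩⟩
  · rw [← hx₀] at hw
    obtain ⟨u, hu, rfl⟩ := tb_sub (x₀ := algebraMap k[X] (FractionRing k[X]) X) hℓ.two_le G
      (by rw [hφ, hy]) hj1 hj2 hj3 m w hw
    exact hj4 u
  · have h2 := agrT20 (x₀ := algebraMap k[X] (FractionRing k[X]) X) hℓ.two_le G (by rw [hφ, hy])
      hj1 hj2 hj3 hc0 hΦ (s := s) hj4 hj5 hQ hQΦ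
    rwa [hx₀] at h2
  · have h2 := agrT20 (x₀ := algebraMap k[X] (FractionRing k[X]) X) hℓ.two_le G (by rw [hφ, hy])
      hj1 hj2 hj3 hc0 hΦ (s := s) hj4 hj5 hQ hQΦ
    rwa [map_inv₀, map_sub, hx₀, ← IsScalarTower.algebraMap_apply] at h2

end Pool.Agent.PRL
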